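import Mathlib

/-!
# Density of difference-recurrent sets (helper947)

If every `k + 1` elements of `B` contain two whose difference has the property `H`, then `B` is
covered by `k` translates of `H`, up to a bounded set. Here `B` is the set of integers coprime to `W`.
-/

set_option autoImplicit false

open Finset

namespace Pool.Agent.H947R3.GD

/-- a maximal set of elements of `B` without differences in `H` -/
theorem max_indep (H B : ℕ → Prop) (k : ℕ)
    (h : ∀ S : Finset ℕ, (∀ s ∈ S, B s) → S.card = k + 1 → ∃ a ∈ S, ∃ b ∈ S, a < b ∧ H (b - a)) :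
    ∃ A : Finset ℕ, A.card ≤ k ∧ ∀ t, B t → (∀ a ∈ A, a < t) → ∃ a ∈ A, H (t - a) := by
  classical
  by_contra hcon
  push Not at hcon
  have key : ∀ m : ℕ, m ≤ k + 1 → ∃ A : Finset ℕ, A.card = m ∧ (∀ s ∈ A, B s) ∧
      ∀ a ∈ A, ∀ b ∈ A, a < b → ¬ H (b - a) := by
    intro m
    induction m with
    | zero => exact fun _ => ⟨∅, by simp, by simp, by simp⟩
    | succ m ih =>
      intro hm
      obtain ⟨A, hA, hB, hi⟩ := ih (by omega)
      obtain ⟨t, htB, htA, ht⟩ := hcon A (by omega)
      have hnot : t ∉ A := fun h1 => lt_irrefl _ (htA t h1)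
      refine ⟨insert t A, by rw [card_insert_of_notMem hnot, hA], ?_, ?_⟩
      · intro s hs
        rcases mem_insert.1 hs with rfl | hs
        · exact htB
        · exact hB s hs
      · intro a ha b hb hab
        rcases mem_insert.1 ha with h1 | h1
        · rcases mem_insert.1 hb with h2 | h2
          · omega
          · exact absurd (htA b h2) (by omega)
        · rcases mem_insert.1 hb with h2 | h2
          · rw [h2]
            exact ht a h1
          · exact hi a h1 b h2 hab
  obtain ⟨A, hA, hB, hi⟩ := key (k + 1) le_rfl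
  obtain ⟨a, ha, b, hb, hab, hH⟩ := h A hB hA
  exact hi a ha b hb hab hH

/-- full periods -/
theorem card_coprime_periods (W n m : ℕ) :
    ((Ico n (n + m * W)).filter (fun x => W.Coprime x)).card = m * W.totient := by
  induction m with
  | zero => simp
  | succ m ih =>
    have h1 : Ico n (n + (m + 1) * W) = Ico n (n + m * W) ∪ Ico (n + m * W) (n + m * W + W) := by
      rw [Ico_union_Ico_eq_Ico (by omega) (by omega)]
      congr 1
      ring
    rw [h1, filter_union, card_union_of_disjoint, ih, Nat.filter_coprime_Ico_eq_totient]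
    · ring
    · apply disjoint_filter_filter
      exact Ico_disjoint_Ico_consecutive _ _ _

/-- lower bound for the number of integers coprime to `W` in an interval -/
theorem card_coprime_ge (W : ℕ) (hW : 0 < W) (n T : ℕ) :
    ((W.totient : ℝ) / W) * T - W ≤ (((Ioc n (n + T)).filter (fun x => W.Coprime x)).card : ℝ) := by
  have h1 : (Ico (n + 1) (n + 1 + (T / W) * W)).filter (fun x => W.Coprime x) ⊆
      (Ioc n (n + T)).filter (fun x => W.Coprime x) := by
    apply filter_subset_filter
    intro x hx
    rw [mem_Ico] at hx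
    rw [mem_Ioc]
    have := Nat.div_mul_le_self T W
    omega
  have h2 := card_le_card h1
  rw [card_coprime_periods] at h2
  have h3 : (((T / W) * W.totient : ℕ) : ℝ) ≤
      (((Ioc n (n + T)).filter (fun x => W.Coprime x)).card : ℝ) := by exact_mod_cast h2
  refine le_trans ?_ h3
  have hWr : (0 : ℝ) < W := by exact_mod_cast hW
  have h4 : (T : ℝ) / W - 1 ≤ ((T / W : ℕ) : ℝ) := by
    have h5 : (T : ℝ) < W * (((T / W : ℕ) : ℝ) + 1) := by
      have := Nat.lt_mul_div_succ T hW
      exact_mod_cast this
    rw [sub_le_iff_le_add, div_le_iff₀ hWr]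
    linarith
  have h6 : (W.totient : ℝ) ≤ W := by exact_mod_cast Nat.totient_le W
  have h7 : (0 : ℝ) ≤ W.totient := by positivity
  push_cast
  calc (W.totient : ℝ) / W * T - W = (T / W : ℝ) * W.totient - W := by ring
    _ ≤ (T / W : ℝ) * W.totient - W.totient := by linarith
    _ = ((T : ℝ) / W - 1) * W.totient := by ring
    _ ≤ ((T / W : ℕ) : ℝ) * W.totient := mul_le_mul_of_nonneg_right h4 h7

open Classical in
/-- density of `H` in every interval -/
theorem density (H : ℕ → Prop) (k W : ℕ) (hk : 0 < k) (hW : 0 < W)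
    (h : ∀ S : Finset ℕ, (∀ s ∈ S, W.Coprime s) → S.card = k + 1 →
      ∃ a ∈ S, ∃ b ∈ S, a < b ∧ H (b - a)) :
    ∃ C : ℝ, ∀ x T : ℕ, (1 / (k : ℝ)) * ((W.totient : ℝ) / W) * T - C ≤
      (((Ioc x (x + T)).filter (fun t => H t)).card : ℝ) := by
  obtain ⟨A, hA, hcov⟩ := max_indep H (fun s => W.Coprime s) k h
  set M : ℕ := A.sup id with hM
  have hAM : ∀ a ∈ A, a ≤ M := fun a ha => Finset.le_sup (f := id) ha
  refine ⟨(W + M) / k, fun x T => ?_⟩
  have hkr : (0 : ℝ) < k := by exact_mod_cast hk
  -- elements of (x, x+T] coprime to W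
  have hsub : (Ioc x (x + T)).filter (fun t => W.Coprime t) ⊆
      Ioc x (x + M) ∪ A.biUnion (fun a => ((Ioc x (x + T)).filter (fun t => H t)).image (· + a)) := by
    intro t ht
    rw [mem_filter, mem_Ioc] at ht
    by_cases h1 : t ≤ x + M
    · exact mem_union_left _ (mem_Ioc.2 ⟨ht.1.1, h1⟩)
    · apply mem_union_right
      push Not at h1
      obtain ⟨a, ha, hHa⟩ := hcov t ht.2 (fun a ha => lt_of_le_of_lt (hAM a ha) (by omega))
      have := hAM a ha
      rw [mem_biUnion]
      refine ⟨a, ha, mem_image.2 ⟨t - a, ?_, by omega⟩⟩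
      rw [mem_filter, mem_Ioc]
      exact ⟨⟨by omega, by omega⟩, hHa⟩
  have h2 := card_le_card hsub
  have h3 : (A.biUnion (fun a => ((Ioc x (x + T)).filter (fun t => H t)).image (· + a))).card ≤
      k * ((Ioc x (x + T)).filter (fun t => H t)).card := by
    refine (card_biUnion_le).trans ?_
    refine (Finset.sum_le_card_nsmul _ _ ((Ioc x (x + T)).filter (fun t => H t)).card ?_).trans ?_
    · intro a _
      exact card_image_le
    · rw [smul_eq_mul]
      exact Nat.mul_le_mul_right _ hA
  have h4 := card_coprime_ge W hW x T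
  have h5 : ((((Ioc x (x + T)).filter (fun t => W.Coprime t)).card : ℕ) : ℝ) ≤
      M + k * (((Ioc x (x + T)).filter (fun t => H t)).card : ℝ) := by
    have h6 : ((Ioc x (x + T)).filter (fun t => W.Coprime t)).card ≤
        M + k * ((Ioc x (x + T)).filter (fun t => H t)).card := by
      refine h2.trans ((card_union_le _ _).trans ?_)
      have : (Ioc x (x + M)).card = M := by rw [Nat.card_Ioc]; omega
      omega
    exact_mod_cast h6
  have h7 : ((W.totient : ℝ) / W) * T - W - M ≤
      k * (((Ioc x (x + T)).filter (fun t => H t)).card : ℝ) := by linarith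
  have h8 : (((W.totient : ℝ) / W) * T - W - M) / k ≤
      (((Ioc x (x + T)).filter (fun t => H t)).card : ℝ) := by
    rw [div_le_iff₀ hkr]
    linarith
  refine le_trans (le_of_eq ?_) h8
  field_simp
  ring

/-- the totient of a product of distinct primes -/
theorem totient_prod_primes (P : Finset ℕ) (hP : ∀ p ∈ P, p.Prime) :
    ((∏ p ∈ P, p : ℕ).totient : ℝ) / (∏ p ∈ P, p : ℕ) = ∏ p ∈ P, (1 - 1 / (p : ℝ)) := by
  classical
  induction P using Finset.induction_on with
  | empty => simp
  | insert q P hq ih =>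
    have hqp : q.Prime := hP q (mem_insert_self _ _)
    have hP' : ∀ p ∈ P, p.Prime := fun p hp => hP p (mem_insert_of_mem hp)
    rw [prod_insert hq, prod_insert hq, ← ih hP']
    have hcop : Nat.Coprime q (∏ p ∈ P, p) := by
      apply Nat.Coprime.prod_right
      intro p hp
      rw [Nat.coprime_primes hqp (hP' p hp)]
      rintro rfl
      exact hq hp
    rw [Nat.totient_mul hcop, Nat.totient_prime hqp]
    have h1 : ((q - 1 : ℕ) : ℝ) = (q : ℝ) - 1 := by
      rw [Nat.cast_sub hqp.one_lt.le]; simp
    have hq0 : (q : ℝ) ≠ 0 := by exact_mod_cast hqp.ne_zero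
    have hne : ((∏ p ∈ P, p : ℕ) : ℝ) ≠ 0 := by
      have : (∏ p ∈ P, p : ℕ) ≠ 0 := Finset.prod_ne_zero_iff.2 (fun p hp => (hP' p hp).ne_zero)
      exact_mod_cast this
    rw [Nat.cast_mul, Nat.cast_mul, h1]
    field_simp

end Pool.Agent.H947R3.GD
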